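import Pool.Agent.TH750.RingKey

/-!
# Every finitely generated commutative ring has a d-Sigma_2 Scott sentence

In particular every finitely generated integral domain has one. Definitions are in
`Pool/Agent/TH750/Scott.lean`.

Proof. Let `a` generate `A` and let the tuple `x` of `A` satisfy all universal formulas true of `a`
(equivalently, the subring `B` generated by `x` is a copy of `A` and `B` is a `Σ_1`-elementary
substructure of `A`). Write `x_i = q_i(a)`. The ideal of relations of `a` is finitely generated, so
`some ȳ satisfies all relations of a and q_i(ȳ) = z_i for all i` is an existential formula of `z̄`.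
It is true of `x` (with `ȳ = a`), hence of `a`, which gives an endomorphism `r` of the ring `A` with
`r(x) = a`. Then `r` is onto, hence injective since `A` is noetherian, so `x` generates `A`. Thus
the orbit of `a` is defined by a `Π_1` formula and this gives the Scott sentence.
-/

set_option autoImplicit false

namespace Pool.Agent.Results.MP_93e0ce_lc.FGCommRings

open FirstOrder FirstOrder.Language FirstOrder.Ring Pool.Agent.TH750.SC

/-- **Every finitely generated commutative ring (in particular every finitely generated integral
domain) has a d-`Σ_2` Scott sentence.** -/
theorem result (A : Type) [CommRing A] [CompatibleRing A]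
    (hA : Structure.FG FirstOrder.Language.ring A) :
    HasDSigma2Scott FirstOrder.Language.ring A := by
  classical
  obtain ⟨S, hS⟩ := (Structure.fg_def.1 hA)
  -- a generating tuple
  let e := S.equivFin
  let a : Fin S.card → A := fun i => (e.symm i : A)
  have hterm : ∀ y : A, ∃ t : FirstOrder.Language.ring.Term (Fin S.card), t.realize a = y := by
    intro y
    have hy : y ∈ Substructure.closure FirstOrder.Language.ring (S : Set A) := by
      rw [hS]
      exact Substructure.mem_top y
    rw [Substructure.mem_closure_iff_exists_term] at hy
    obtain ⟨t, ht⟩ := hy
    refine ⟨t.relabel (fun s => e ⟨s.1, s.2⟩), ?_⟩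
    rw [Term.realize_relabel, ← ht]
    congr 1
    funext s
    simp [a]
  have hsurj : ∀ x : Fin S.card → A,
      (∀ y : A, ∃ t : FirstOrder.Language.ring.Term (Fin S.card), t.realize x = y) ↔
        Function.Surjective (FreeCommRing.lift x) := by
    intro x
    constructor
    · intro h y
      obtain ⟨t, ht⟩ := h y
      have : ∀ t : FirstOrder.Language.ring.Term (Fin S.card),
          ∃ p, FreeCommRing.lift x p = t.realize x := by
        intro t
        induction t with
        | var i => exact ⟨FreeCommRing.of i, by simp⟩
        | @func l f ts ih =>
          choose p hp using ih
          cases f with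
          | add => exact ⟨p 0 + p 1, by
              rw [map_add, hp, hp]
              exact (CompatibleRing.funMap_add (fun i => (ts i).realize x)).symm⟩
          | mul => exact ⟨p 0 * p 1, by
              rw [map_mul, hp, hp]
              exact (CompatibleRing.funMap_mul (fun i => (ts i).realize x)).symm⟩
          | neg => exact ⟨-p 0, by
              rw [map_neg, hp]
              exact (CompatibleRing.funMap_neg (fun i => (ts i).realize x)).symm⟩
          | zero => exact ⟨0, by
              rw [map_zero]
              exact (CompatibleRing.funMap_zero (fun i => (ts i).realize x)).symm⟩
          | one => exact ⟨1, by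
              rw [map_one]
              exact (CompatibleRing.funMap_one (fun i => (ts i).realize x)).symm⟩
      obtain ⟨p, hp⟩ := this t
      exact ⟨p, hp.trans ht⟩
    · intro h y
      obtain ⟨p, hp⟩ := h y
      exact ⟨termOfFreeCommRing p, by rw [realize_termOfFreeCommRing, hp]⟩
  refine hasDSigma2Scott_of_generates a hterm fun x hx => ?_
  rw [hsurj]
  exact surjective_of_univLE ((hsurj a).1 hterm) hx

end Pool.Agent.Results.MP_93e0ce_lc.FGCommRings
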